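import Mathlib
import Pool.Agent.H130R6.DL
import Pool.Agent.H130R6.Dual
import Pool.Agent.H130R6.WeakNbhd

set_option autoImplicit false

namespace Pool.Agent.Results.MP_914893_an.DiametralDuality

open Pool.Agent.H130R6

universe u

/-- The diametral diameter two property (DD2P) of a real normed space `X`: for every weakly open
set `U`, every norm-one point `x` of `U` and every `ε > 0` there is a point `y` of the closed unit
ball in `U` with `‖x - y‖ > 2 - ε`. -/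
def DD2P (X : Type u) [NormedAddCommGroup X] [NormedSpace ℝ X] : Prop :=
  ∀ U : Set (WeakSpace ℝ X), IsOpen U → ∀ x : X, ‖x‖ = 1 → toWeakSpace ℝ X x ∈ U →
    ∀ ε : ℝ, 0 < ε → ∃ y : X, ‖y‖ ≤ 1 ∧ toWeakSpace ℝ X y ∈ U ∧ 2 - ε < ‖x - y‖

/-- The weak-star diametral diameter two property of the dual of `X`: the same in the dual unit
ball with weak-star open sets. -/
def WStarDD2P (X : Type u) [NormedAddCommGroup X] [NormedSpace ℝ X] : Prop :=
  ∀ U : Set (WeakDual ℝ X), IsOpen U → ∀ f : StrongDual ℝ X, ‖f‖ = 1 →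
    StrongDual.toWeakDual f ∈ U →
    ∀ ε : ℝ, 0 < ε → ∃ g : StrongDual ℝ X, ‖g‖ ≤ 1 ∧ StrongDual.toWeakDual g ∈ U ∧
      2 - ε < ‖f - g‖

/-- The diametral local diameter two property (DLD2P): the same with slices
`{y in the unit ball : h y > ‖h‖ - α}` of the unit ball. -/
def DLD2P (X : Type u) [NormedAddCommGroup X] [NormedSpace ℝ X] : Prop :=
  ∀ h : StrongDual ℝ X, h ≠ 0 → ∀ α : ℝ, 0 < α → ∀ x : X, ‖x‖ = 1 → ‖h‖ - α < h x →
    ∀ ε : ℝ, 0 < ε → ∃ y : X, ‖y‖ ≤ 1 ∧ ‖h‖ - α < h y ∧ 2 - ε < ‖x - y‖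

/-- The weak-star diametral local diameter two property: the same with weak-star slices
`{g in the dual unit ball : g v > ‖v‖ - α}` of the dual unit ball. -/
def WStarDLD2P (X : Type u) [NormedAddCommGroup X] [NormedSpace ℝ X] : Prop :=
  ∀ v : X, v ≠ 0 → ∀ α : ℝ, 0 < α → ∀ f : StrongDual ℝ X, ‖f‖ = 1 → ‖v‖ - α < f v →
    ∀ ε : ℝ, 0 < ε → ∃ g : StrongDual ℝ X, ‖g‖ ≤ 1 ∧ ‖v‖ - α < g v ∧ 2 - ε < ‖f - g‖

/-- For every real normed space `X` (in particular for every real Banach space) the DD2P of `X`,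
the weak-star DD2P of the dual of `X`, the DLD2P of `X` and the weak-star DLD2P of the dual of `X`
are all equivalent. -/
theorem result (X : Type u) [NormedAddCommGroup X] [NormedSpace ℝ X] :
    (DD2P X ↔ WStarDD2P X) ∧ (DD2P X ↔ DLD2P X) ∧ (WStarDD2P X ↔ WStarDLD2P X) := by
  -- DD2P → DLD2P
  have h12 : DD2P X → DLD2P X := by
    intro H h _ α _ x hx hxh ε hε
    have hopen : IsOpen {z : WeakSpace ℝ X | ‖h‖ - α < (topDualPairing ℝ X).flip z h} := by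
      have hc : Continuous fun z : WeakSpace ℝ X => (topDualPairing ℝ X).flip z h :=
        WeakBilin.eval_continuous (topDualPairing ℝ X).flip h
      exact isOpen_lt continuous_const hc
    obtain ⟨y, hy1, hy2, hy3⟩ := H _ hopen x hx hxh ε hε
    exact ⟨y, hy1, hy2, hy3⟩
  have h34 : WStarDD2P X → WStarDLD2P X := by
    intro H v _ α _ f hf hfv ε hε
    have hopen : IsOpen {z : WeakDual ℝ X | ‖v‖ - α < z v} :=
      isOpen_lt continuous_const (WeakDual.eval_continuous v)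
    obtain ⟨g, hg1, hg2, hg3⟩ := H _ hopen f hf hfv ε hε
    exact ⟨g, hg1, hg2, hg3⟩
  -- reformulated local properties
  have hL : DLD2P X → ∀ (h : X →L[ℝ] ℝ) (x : X), ‖x‖ = 1 → ∀ τ : ℝ, 0 < τ → ∀ ε : ℝ, 0 < ε →
      ∃ y : X, ‖y‖ ≤ 1 ∧ h x - τ < h y ∧ 2 - ε < ‖x - y‖ := by
    intro H h x hx τ hτ ε hε
    by_cases h0 : h = 0
    · obtain ⟨p, hp1, hp2⟩ := exists_dual_vector ℝ x (by rw [hx]; exact one_ne_zero)
      have hp0 : p ≠ 0 := by
        rintro rfl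
        rw [norm_zero] at hp1
        exact zero_ne_one hp1
      have hpx : p x = 1 := by rw [hp2, hx]; simp
      obtain ⟨y, hy1, hy2, hy3⟩ := H p hp0 1 one_pos x hx (by rw [hp1, hpx]; norm_num) ε hε
      refine ⟨y, hy1, ?_, hy3⟩
      rw [h0]
      simpa using hτ
    · have hhx : h x ≤ ‖h‖ := by
        have h1 := h.le_opNorm x
        rw [hx, mul_one, Real.norm_eq_abs] at h1
        exact (le_abs_self _).trans h1
      obtain ⟨y, hy1, hy2, hy3⟩ := H h h0 (‖h‖ - h x + τ) (by linarith) x hx (by linarith) ε hε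
      exact ⟨y, hy1, by linarith, hy3⟩
  have hLs : WStarDLD2P X → ∀ (v : X) (f : X →L[ℝ] ℝ), ‖f‖ = 1 → ∀ τ : ℝ, 0 < τ →
      ∀ ε : ℝ, 0 < ε → ∃ g : X →L[ℝ] ℝ, ‖g‖ ≤ 1 ∧ f v - τ < g v ∧ 2 - ε < ‖f - g‖ := by
    intro H v f hf τ hτ ε hε
    have hfle : ∀ z : X, f z ≤ ‖z‖ := by
      intro z
      have h1 := f.le_opNorm z
      rw [hf, one_mul, Real.norm_eq_abs] at h1
      exact (le_abs_self _).trans h1
    by_cases h0 : v = 0
    · obtain ⟨z, hz1, hz2⟩ := exists_norming (f := f) (r := 1 / 2) (by rw [hf]; norm_num)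
      have hz0 : z ≠ 0 := by
        rintro rfl
        rw [map_zero] at hz2
        linarith
      obtain ⟨g, hg1, hg2, hg3⟩ := H z hz0 1 one_pos f hf (by linarith) ε hε
      refine ⟨g, hg1, ?_, hg3⟩
      rw [h0, map_zero, map_zero]
      linarith
    · obtain ⟨g, hg1, hg2, hg3⟩ := H v h0 (‖v‖ - f v + τ) (by linarith [hfle v]) f hf
        (by linarith) ε hε
      exact ⟨g, hg1, by linarith, hg3⟩
  have hLw : (∀ (h : X →L[ℝ] ℝ) (x : X), ‖x‖ = 1 → ∀ τ : ℝ, 0 < τ → ∀ ε : ℝ, 0 < ε →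
      ∃ y : X, ‖y‖ ≤ 1 ∧ h x - τ < h y ∧ 2 - ε < ‖x - y‖) → DD2P X := by
    intro H U hU x hx hxU ε hε
    obtain ⟨m, g, δ, hδ, hg⟩ := weakBilin_nbhd (topDualPairing ℝ X).flip U hU x hxU
    obtain ⟨y, hy1, hy2, hy3⟩ := slices_to_weak (E := X) (V := X →L[ℝ] ℝ) LinearMap.id H m g δ hδ
      x hx ε hε
    refine ⟨y, hy1, hg y ?_, hy3⟩
    intro i
    have h1 := hy2 i
    simp only [LinearMap.id_coe, id_eq, map_sub] at h1
    exact h1
  have hLsw : (∀ (v : X) (f : X →L[ℝ] ℝ), ‖f‖ = 1 → ∀ τ : ℝ, 0 < τ →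
      ∀ ε : ℝ, 0 < ε → ∃ g : X →L[ℝ] ℝ, ‖g‖ ≤ 1 ∧ f v - τ < g v ∧ 2 - ε < ‖f - g‖) →
      WStarDD2P X := by
    intro H U hU f hf hfU ε hε
    obtain ⟨m, v, δ, hδ, hg⟩ := weakBilin_nbhd (topDualPairing ℝ X) U hU f hfU
    obtain ⟨g, hg1, hg2, hg3⟩ := slices_to_weak (E := X →L[ℝ] ℝ) (V := X)
      (NormedSpace.inclusionInDoubleDual ℝ X).toLinearMap
      (fun v f hf τ hτ ε hε => H v f hf τ hτ ε hε) m v δ hδ f hf ε hε
    refine ⟨g, hg1, hg g ?_, hg3⟩
    intro i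
    exact hg2 i
  have h21 : DLD2P X → DD2P X := fun H => hLw (hL H)
  have h43 : WStarDLD2P X → WStarDD2P X := fun H => hLsw (hLs H)
  have h23 : DLD2P X → WStarDD2P X := fun H => hLsw (fun v f hf τ hτ ε hε =>
    local_to_dual (hL H) v f hf τ hτ ε hε)
  have h41 : WStarDLD2P X → DD2P X := fun H => hLw (fun h x hx τ hτ ε hε =>
    dual_to_local (hLs H) h x hx τ hτ ε hε)
  exact ⟨⟨fun H => h23 (h12 H), fun H => h41 (h34 H)⟩, ⟨h12, h21⟩, ⟨h34, h43⟩⟩

end Pool.Agent.Results.MP_914893_an.DiametralDuality
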